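import Pool.Agent.R963.Opt.Top

/-!
# Optimal potentials for Schrödinger eigenvalues have bounded sets of finiteness

The definitions (`Sp d = ℝ^d`, `WeakGrad`, `energy`, `form`, `lam`, `InA`, `IsOptimal`) are in
`Pool/Agent/R963/Opt/Defs.lean`.

Idea of the proof. Let `V` be optimal, `m(t)` the mass `∫ V^{-p}` outside the ball of radius `√t`,
and let `v` be a frame of `k` functions which nearly minimizes the sum of the energies among all
frames with Gram matrix `≥ 1`.

* Comparing `v` with the cut-off frame gives, without any Euler-Lagrange equation, the Caccioppoli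
  inequality for the outer energy; comparing with a trial vector of `λ_k` gives
  `Q ≤ (λ_k + 2ε)` on the frame.
* The cut-off frame is a trial frame for the potential which is `∞` outside a ball, and this
  potential may be dilated since it has less mass. Minimality yields `m(t) ≤ C (a(s) + ε)`, where
  `a(s)` is the squared `L²`-norm of the frame outside the ball of radius `√s`.
* The inequality `∫ u² ≤ C (∫ |∇u|² + ∫ V u²) (∫_{u ≠ 0} V^{-p})^{2/(2p+d)}` (Hölder and
  Gagliardo-Nirenberg) turns this into a superlinear recursion for `a`, and Stampacchia's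
  iteration gives `m(t) = 0` for some `t`.
-/

set_option autoImplicit false

open MeasureTheory Set
open scoped ENNReal

namespace Pool.Agent.Results.MP_5ab436_an.BoundedFinitenessSet

open Pool.Agent.R963.Opt

/-- **Positive answer to Q1** (for all `p > 0`, in particular for `0 < p ≤ 1`). For every `d ≥ 1`,
every `p > 0` and every `k ≥ 1`, every optimal potential `V` of `λ_k` in the class `𝒜_p` has a
bounded set of finiteness `{V < ∞}`, up to a null set. -/
theorem result (d : ℕ) (hd : 1 ≤ d) (p : ℝ) (hp : 0 < p) (k : ℕ) (hk : 1 ≤ k)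
    (V : Sp d → ℝ≥0∞) (hV : IsOptimal p k V) :
    ∃ N : Set (Sp d), volume N = 0 ∧ Bornology.IsBounded ({x | V x < ⊤} \ N) := by
  obtain ⟨s, hs⟩ := bounded hd hp hk hV
  refine ⟨{x | ¬ (s < rho x → V x = ⊤)}, hs, ?_⟩
  rw [Metric.isBounded_iff_subset_closedBall (0 : Sp d)]
  refine ⟨Real.sqrt s, ?_⟩
  rintro x ⟨hx1, hx2⟩
  have hx3 : s < rho x → V x = ⊤ := by
    by_contra h
    exact hx2 h
  have hx4 : rho x ≤ s := by
    by_contra h
    have h1 : V x < ⊤ := hx1
    rw [hx3 (not_le.1 h)] at h1
    exact lt_irrefl _ h1
  rw [Metric.mem_closedBall, dist_zero_right, pi_norm_le_iff_of_nonneg (Real.sqrt_nonneg _)]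
  intro i
  rw [Real.norm_eq_abs]
  refine Real.abs_le_sqrt (le_trans ?_ hx4)
  exact Finset.single_le_sum (f := fun i => x i ^ 2) (fun i _ => sq_nonneg _) (Finset.mem_univ i)

end Pool.Agent.Results.MP_5ab436_an.BoundedFinitenessSet
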